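import Mathlib

/-!
The OSSS inequality fails for fractional query algorithms (already for `n = 2`).
-/

set_option autoImplicit false

namespace Pool.Agent.Results.MP_ebdc6e_an.FractionalOSSSFails

open MeasureTheory Filter Topology

noncomputable section

/-- The sign of a bit: `true` is `+1` and `false` is `-1`. -/
def sgn (b : Bool) : ℝ := if b then 1 else -1

/-- The point of `{-1,1}^n` with the given bits. -/
def pt {n : ℕ} (b : Fin n → Bool) : Fin n → ℝ := fun i => sgn (b i)

/-- Mean under the uniform measure on the cube. -/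
def mean {n : ℕ} (f : (Fin n → Bool) → ℝ) : ℝ := (∑ b, f b) / 2 ^ n

/-- Variance under the uniform measure on the cube. -/
def variance {n : ℕ} (f : (Fin n → Bool) → ℝ) : ℝ := (∑ b, (f b - mean f) ^ 2) / 2 ^ n

open Classical in
/-- Influence of bit `i`: probability that flipping bit `i` changes the value. -/
def influence {n : ℕ} (f : (Fin n → Bool) → ℝ) (i : Fin n) : ℝ :=
  ((Finset.univ.filter (fun b : Fin n → Bool =>
    f b ≠ f (Function.update b i (!(b i))))).card : ℝ) / 2 ^ n

/-- The value `X(τ)`, with `X(∞)` the terminal value. -/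
def valueAt {n : ℕ} {Ω : Type} (X : ℕ → Ω → (Fin n → ℝ)) (Xinf : Ω → (Fin n → ℝ))
    (τ : Ω → WithTop ℕ) (ω : Ω) : Fin n → ℝ :=
  if τ ω = ⊤ then Xinf ω else X ((τ ω).untopD 0) ω

/-- `(X, τ)` are the martingale (with terminal value `Xinf`) and the stopping time of a fractional
query algorithm in discrete time for uniform inputs. -/
structure IsFractionalQuery {n : ℕ} {Ω : Type} [MeasurableSpace Ω] (P : Measure Ω)
    (X : ℕ → Ω → (Fin n → ℝ)) (Xinf : Ω → (Fin n → ℝ)) (τ : Ω → WithTop ℕ) : Prop where
  prob : IsProbabilityMeasure P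
  mem_cube : ∀ t ω i, |X t ω i| ≤ 1
  start : ∀ ω, X 0 ω = 0
  meas : ∀ t, StronglyMeasurable (X t)
  conv : ∀ᵐ ω ∂P, Tendsto (fun t => X t ω) atTop (𝓝 (Xinf ω))
  law : ∀ b : Fin n → Bool, P {ω | Xinf ω = pt b} = ((2 : ENNReal) ^ n)⁻¹
  stop : IsStoppingTime (Filtration.natural X meas) τ
  prod_martingale : ∀ S : Finset (Fin n),
    Martingale (fun t ω => ∏ i ∈ S, X t ω i) (Filtration.natural X meas) P

/-- Revealment of bit `i`. -/
def revealment {n : ℕ} {Ω : Type} [MeasurableSpace Ω] (P : Measure Ω)
    (X : ℕ → Ω → (Fin n → ℝ)) (Xinf : Ω → (Fin n → ℝ)) (τ : Ω → WithTop ℕ) (i : Fin n) : ℝ :=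
  ∫ ω, (valueAt X Xinf τ ω i) ^ 2 ∂P

/-! ### The example -/

/-- position after one step -/
def X1 : Fin 8 → Fin 2 → ℝ :=
  ![![-1, 1/3], ![-1, 1/3], ![-1, 1/3], ![1/3, -1], ![1/3, -1], ![1/3, -1], ![1, 1], ![1, 1]]

/-- final position -/
def X2 : Fin 8 → Fin 2 → ℝ :=
  ![![-1, 1], ![-1, 1], ![-1, -1], ![1, -1], ![1, -1], ![-1, -1], ![1, 1], ![1, 1]]

/-- the process -/
def XX : ℕ → Fin 8 → Fin 2 → ℝ
  | 0 => fun _ => 0
  | 1 => X1
  | (_ + 2) => X2

/-- label -/
def Y1 : Fin 8 → Fin 8 := ![0, 0, 0, 3, 3, 3, 6, 6]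

/-- the measure -/
def PP : Measure (Fin 8) := (8 : ENNReal)⁻¹ • Measure.count

instance : IsProbabilityMeasure PP := by
  constructor
  simp only [PP, Measure.smul_apply, smul_eq_mul, Measure.count_univ, ENat.card_eq_coe_fintype_card,
    Fintype.card_fin]
  have : ((((8 : ℕ) : ℕ∞) : ENNReal)) = 8 := by norm_num
  rw [this]
  exact ENNReal.inv_mul_cancel (by norm_num) (by norm_num)

lemma integral_PP (g : Fin 8 → ℝ) : ∫ ω, g ω ∂PP = (∑ ω, g ω) / 8 := by
  rw [PP, integral_smul_measure, integral_count]
  simp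
  ring

lemma setIntegral_PP (g : Fin 8 → ℝ) (s : Set (Fin 8)) [DecidablePred (· ∈ s)] :
    ∫ ω in s, g ω ∂PP = (∑ ω, if ω ∈ s then g ω else 0) / 8 := by
  rw [← integral_indicator (by trivial), integral_PP]
  congr 1
  refine Finset.sum_congr rfl (fun ω _ => ?_)
  by_cases h : ω ∈ s <;> simp [h]

lemma sm (t : ℕ) : StronglyMeasurable (XX t) := StronglyMeasurable.of_discrete

lemma nat_zero (s : Set (Fin 8)) (hs : MeasurableSet[Filtration.natural XX sm 0] s) :
    s = ∅ ∨ s = Set.univ := by
  have hle : (Filtration.natural XX sm 0 : MeasurableSpace (Fin 8)) ≤ ⊥ := by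
    refine iSup₂_le (fun j hj => ?_)
    have : j = 0 := by omega
    subst this
    have : XX 0 = fun _ => 0 := rfl
    rw [this]
    rw [MeasurableSpace.comap_const]
  have := hle s hs
  exact (MeasurableSpace.measurableSet_bot_iff).mp this

lemma nat_one (s : Set (Fin 8)) (hs : MeasurableSet[Filtration.natural XX sm 1] s) :
    ∃ B : Set (Fin 8), s = Y1 ⁻¹' B := by
  have hle : (Filtration.natural XX sm 1 : MeasurableSpace (Fin 8)) ≤ MeasurableSpace.comap Y1 ⊤ := by
    refine iSup₂_le (fun j hj => ?_)
    have hfac : XX j = XX j ∘ Y1 := by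
      interval_cases j
      · rfl
      · funext ω
        fin_cases ω <;> simp [XX, X1, Y1]
    rw [hfac, ← MeasurableSpace.comap_comp]
    exact MeasurableSpace.comap_mono le_top
  obtain ⟨B, _, hB⟩ := hle s hs
  exact ⟨B, hB.symm⟩

lemma prod_two (S : Finset (Fin 2)) (g : Fin 2 → ℝ) :
    ∏ i ∈ S, g i = (if (0 : Fin 2) ∈ S then g 0 else 1) * (if (1 : Fin 2) ∈ S then g 1 else 1) := by
  have : ∏ i ∈ S, g i = ∏ i, if i ∈ S then g i else 1 := by
    rw [Finset.prod_ite_mem]
    simp
  rw [this, Fin.prod_univ_two]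

lemma cube (t : ℕ) (ω : Fin 8) (i : Fin 2) : |XX t ω i| ≤ 1 := by
  rcases t with _ | _ | t
  · simp [XX]
  · fin_cases ω <;> fin_cases i <;> simp [XX, X1] <;> norm_num
  · fin_cases ω <;> fin_cases i <;> simp [XX, X2]

lemma mart (S : Finset (Fin 2)) :
    Martingale (fun t ω => ∏ i ∈ S, XX t ω i) (Filtration.natural XX sm) PP := by
  classical
  apply martingale_of_setIntegral_eq_succ
  · intro t
    have h1 : StronglyMeasurable[Filtration.natural XX sm t] (XX t) :=
      Filtration.stronglyAdapted_natural sm t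
    have h2 : ∀ i, StronglyMeasurable[Filtration.natural XX sm t] (fun ω => XX t ω i) :=
      fun i => (continuous_apply i).comp_stronglyMeasurable h1
    exact Finset.stronglyMeasurable_fun_prod S (fun i _ => h2 i)
  · intro t
    exact Integrable.of_finite
  · intro t s hs
    rcases t with _ | _ | t
    · rcases nat_zero s hs with h | h
      · subst h; simp
      · subst h
        rw [Measure.restrict_univ, integral_PP, integral_PP]
        congr 1
        simp only [prod_two, Fin.sum_univ_eight, XX, X1]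
        by_cases h0 : (0 : Fin 2) ∈ S <;> by_cases h1 : (1 : Fin 2) ∈ S <;>
          simp [h0, h1] <;> norm_num
    · obtain ⟨B, rfl⟩ := nat_one s hs
      rw [setIntegral_PP, setIntegral_PP]
      congr 1
      simp only [prod_two, Fin.sum_univ_eight, XX, X1, X2, Set.mem_preimage, Y1]
      by_cases h0 : (0 : Fin 2) ∈ S <;> by_cases h1 : (1 : Fin 2) ∈ S <;>
        by_cases b0 : (0 : Fin 8) ∈ B <;> by_cases b3 : (3 : Fin 8) ∈ B <;>
        by_cases b6 : (6 : Fin 8) ∈ B <;>
          simp [h0, h1, b0, b3, b6] <;> norm_num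
    · rfl

/-- The function: AND. -/
def ff : (Fin 2 → Bool) → ℝ := fun b => if b 0 = true ∧ b 1 = true then 1 else -1

/-- terminal value -/
def Xi : Fin 8 → Fin 2 → ℝ := X2

/-- output map -/
def AA : (Fin 2 → ℝ) → ℝ := fun x => if 0 < x 0 + x 1 - 1 then 1 else -1

/-- There are a Boolean function `f` on `{-1,1}^2` and a fractional query algorithm computing `f`
with zero error for which the OSSS inequality fails: `∑ δ_i Inf_i(f) < Var(f)`. -/
theorem result :
    ∃ (f : (Fin 2 → Bool) → ℝ) (Ω : Type) (_ : MeasurableSpace Ω) (P : Measure Ω)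
      (X : ℕ → Ω → (Fin 2 → ℝ)) (Xinf : Ω → (Fin 2 → ℝ)) (τ : Ω → WithTop ℕ)
      (A : (Fin 2 → ℝ) → ℝ),
      (∀ b, f b = 1 ∨ f b = -1) ∧
      IsFractionalQuery P X Xinf τ ∧
      (∀ᵐ ω ∂P, ∀ b : Fin 2 → Bool, Xinf ω = pt b → A (valueAt X Xinf τ ω) = f b) ∧
      ∑ i, revealment P X Xinf τ i * influence f i < variance f := by
  classical
  have hval : ∀ ω, valueAt XX Xi (fun _ => ((1 : ℕ) : WithTop ℕ)) ω = X1 ω := by
    intro ω
    unfold valueAt
    rw [if_neg (by simp)]
    rfl
  refine ⟨ff, Fin 8, inferInstance, PP, XX, Xi, fun _ => ((1 : ℕ) : WithTop ℕ), AA, ?_, ?_, ?_, ?_⟩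
  · intro b
    unfold ff
    split_ifs <;> simp
  · refine ⟨inferInstance, cube, fun _ => rfl, sm, ?_, ?_, ?_, mart⟩
    · refine Eventually.of_forall (fun ω => ?_)
      apply tendsto_const_nhds.congr'
      filter_upwards [eventually_ge_atTop 2] with t ht
      obtain ⟨k, rfl⟩ := Nat.exists_eq_add_of_le ht
      rw [add_comm]
      rfl
    · intro b
      have hset : {ω : Fin 8 | Xi ω = pt b} =
          ((Finset.univ.filter (fun ω : Fin 8 =>
            (![true, true, false, false, false, false, true, true] : Fin 8 → Bool) ω = b 1 ∧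
            (![false, false, false, true, true, false, true, true] : Fin 8 → Bool) ω = b 0) : Finset (Fin 8)) : Set (Fin 8)) := by
        ext ω
        simp only [Set.mem_ofPred_eq, Finset.coe_filter, Finset.mem_univ, true_and]
        rw [funext_iff, Fin.forall_fin_two]
        simp only [Xi, X2, pt, sgn]
        cases h0 : b 0 <;> cases h1 : b 1 <;> fin_cases ω <;> simp <;> norm_num
      rw [hset]
      simp only [PP, Measure.smul_apply, smul_eq_mul]
      rw [Measure.count_apply_finset]
      have hcard : (Finset.univ.filter (fun ω : Fin 8 =>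
            (![true, true, false, false, false, false, true, true] : Fin 8 → Bool) ω = b 1 ∧
            (![false, false, false, true, true, false, true, true] : Fin 8 → Bool) ω = b 0)).card = 2 := by
        generalize b 1 = b1
        generalize b 0 = b0
        revert b0 b1
        decide
      rw [hcard]
      have : (8 : ENNReal) = 2 ^ 2 * 2 := by norm_num
      rw [this, ENNReal.mul_inv (by norm_num) (by norm_num), mul_assoc]
      have h2 : (2 : ENNReal)⁻¹ * ((2 : ℕ) : ENNReal) = 1 :=
        ENNReal.inv_mul_cancel (by norm_num) (by norm_num)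
      rw [h2, mul_one]
    · exact isStoppingTime_const _ 1
  · refine Eventually.of_forall (fun ω b hb => ?_)
    rw [hval]
    rw [funext_iff, Fin.forall_fin_two] at hb
    simp only [Xi, X2, pt, sgn] at hb
    unfold ff AA
    cases h0 : b 0 <;> cases h1 : b 1 <;> rw [h0, h1] at hb <;> fin_cases ω <;>
      first
      | (exfalso; revert hb; norm_num; done)
      | (clear hb; norm_num [X1]; done)
      | (clear hb; simp [X1]; done)
  · have hr : ∀ i, revealment PP XX Xi (fun _ => ((1 : ℕ) : WithTop ℕ)) i = 2 / 3 := by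
      intro i
      unfold revealment
      simp only [hval]
      rw [integral_PP, Fin.sum_univ_eight]
      fin_cases i <;> simp [X1] <;> norm_num
    have hinf : ∀ i, influence ff i = 1 / 2 := by
      intro i
      unfold influence
      have : (Finset.univ.filter (fun b : Fin 2 → Bool =>
          ff b ≠ ff (Function.update b i (!(b i))))) =
          (Finset.univ.filter (fun b : Fin 2 → Bool => b (1 - i) = true)) := by
        ext b
        simp only [Finset.mem_filter, Finset.mem_univ, true_and]
        unfold ff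
        fin_cases i <;> cases h0 : b 0 <;> cases h1 : b 1 <;> simp [h0, h1] <;> norm_num
      rw [this]
      have hc : (Finset.univ.filter (fun b : Fin 2 → Bool => b (1 - i) = true)).card = 2 := by
        clear this; revert i; decide
      rw [hc]; norm_num
    have hmean : mean ff = -1/2 := by
      unfold mean
      have : ∑ b, ff b = ∑ p : Bool × Bool, (if p.1 = true ∧ p.2 = true then (1:ℝ) else -1) := by
        rw [← (finTwoArrowEquiv Bool).sum_comp]
        rfl
      rw [this, Fintype.sum_prod_type]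
      simp
      norm_num
    have hvar : variance ff = 3 / 4 := by
      unfold variance
      rw [hmean]
      have : ∑ b, (ff b - -1/2) ^ 2 = ∑ p : Bool × Bool, ((if p.1 = true ∧ p.2 = true then (1:ℝ) else -1) - -1/2) ^ 2 := by
        rw [← (finTwoArrowEquiv Bool).sum_comp]
        rfl
      rw [this, Fintype.sum_prod_type]
      simp
      norm_num
    rw [hvar, Fin.sum_univ_two, hr, hr, hinf, hinf]
    norm_num

end

end Pool.Agent.Results.MP_ebdc6e_an.FractionalOSSSFails
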